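import Pool.Agent.TH930.FD.Cnt
import Pool.Agent.TH930.ZT.Chain

set_option autoImplicit false

/-! Descending through the levels, with an account of the time, for generalised `3x+1` maps. -/

namespace Pool.Agent.TH930.FD

open Finset Pool.Agent.H319R3.GC Pool.Agent.TH930.GH Pool.Agent.H828R3.GP
open Pool.Agent.TH930.ZT (abs_natAbs one_le_abs')

variable {d : ℕ} {m r : ℕ → ℤ}

/-- the level in base `d` -/
def lev (d : ℕ) (z : ℤ) : ℕ := Nat.log d z.natAbs + 1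

lemma lev_lt (hd : 2 ≤ d) (z : ℤ) : |(z : ℝ)| < (d : ℝ) ^ lev d z := by
  rw [abs_natAbs]
  have : z.natAbs < d ^ lev d z := Nat.lt_pow_succ_log_self (by omega) _
  exact_mod_cast this

lemma lev_ge {z : ℤ} (hz : z ≠ 0) : (d : ℝ) ^ (lev d z - 1) ≤ |(z : ℝ)| := by
  rw [abs_natAbs]
  have h1 : d ^ (Nat.log d z.natAbs) ≤ z.natAbs := Nat.pow_log_le_self d (Int.natAbs_ne_zero.2 hz)
  have h2 : ((d : ℝ) ^ (Nat.log d z.natAbs)) ≤ z.natAbs := by exact_mod_cast h1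
  unfold lev
  rw [Nat.add_sub_cancel]
  exact h2

/-- THE CHAIN, with the time -/
theorem time_chain (hd : 2 ≤ d) {ω : ℕ → ℝ} (hω : ∀ i < d, 1 ≤ ω i) {B₁ B : ℝ} (hB1 : 0 < B₁) (hBB : B₁ < B)
    {n l M : ℕ} {x : ℤ} (hx : ∀ k, (Tm d m r)^[k] x ≠ 0)
    (hxk : |(x : ℝ)| < (d : ℝ) ^ n) (hl1 : 2 * Real.log d ≤ l / B₁)
    (hl2 : B * Real.log d ≤ (B - B₁) * (l / B₁)) (hM : B * (n * Real.log d) ≤ M)
    (h : ∀ i q, l < i → i ≤ n → q ≤ M → FP d m r i q x → (Tm d m r)^[q] x ∉ Ez d m r ω B₁ i) :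
    ∀ i q, i ≤ n → FP d m r i q x → (d : ℝ) ^ (i - 1) ≤ |(((Tm d m r)^[q] x : ℤ) : ℝ)| →
      tm d m r ω q x ≤ B * (Real.log |(x : ℝ)| - Real.log |(((Tm d m r)^[q] x : ℤ) : ℝ)|) →
      ∃ q', |(((Tm d m r)^[q'] x : ℤ) : ℝ)| < (d : ℝ) ^ l ∧
        tm d m r ω q' x ≤ B * (Real.log |(x : ℝ)| - Real.log |(((Tm d m r)^[q'] x : ℤ) : ℝ)|) := by
  classical
  have hdR : (2 : ℝ) ≤ d := by exact_mod_cast hd
  have hl0 : 0 < Real.log d := Real.log_pos (by linarith)
  have hB0 : 0 < B := by linarith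
  intro i
  induction i using Nat.strong_induction_on with
  | _ i ih =>
    intro q hik hfp hy hm
    rcases Nat.lt_or_ge l i with hli | hli
    swap
    · exact ⟨q, hfp.2.trans_le (pow_le_pow_right₀ (by linarith) hli), hm⟩
    set z := (Tm d m r)^[q] x with hz
    have hz0 : z ≠ 0 := hx q
    have hz1 : (1 : ℝ) ≤ |(z : ℝ)| := one_le_abs' hz0
    have hz0R : (0 : ℝ) < |(z : ℝ)| := by linarith
    have hlz : 0 ≤ Real.log |(z : ℝ)| := Real.log_nonneg hz1
    have hx1 : (1 : ℝ) ≤ |(x : ℝ)| := one_le_abs' (hx 0)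
    have hlx : Real.log |(x : ℝ)| ≤ n * Real.log d := by
      rw [← Real.log_pow]
      exact Real.log_le_log (by linarith) hxk.le
    have hmM : q ≤ M := by
      have h1 : (q : ℝ) ≤ M := by
        refine (le_tm hd hω q x).trans (hm.trans (le_trans ?_ hM))
        exact mul_le_mul_of_nonneg_left (by linarith) hB0.le
      exact_mod_cast h1
    have hns := h i q hli hik hmM hfp
    rw [mem_Ez] at hns
    set K := i - 1 with hK
    set w0 := (Tm d m r)^[K] z with hw0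
    have hw00 : w0 ≠ 0 := by
      rw [hw0, hz, ← Function.iterate_add_apply]
      exact hx _
    have hw0R : (0 : ℝ) < |(w0 : ℝ)| := lt_of_lt_of_le one_pos (one_le_abs' hw00)
    have q1 : |(w0 : ℝ)| * Real.exp (tm d m r ω K z / B₁) < |(z : ℝ)| := by
      by_contra hcon
      exact hns ⟨hfp.2, hy, not_lt.1 hcon⟩
    have hlw0 : Real.log |(w0 : ℝ)| + tm d m r ω K z / B₁ ≤ Real.log |(z : ℝ)| := by
      have h1 := Real.log_le_log (by positivity) q1.le
      rwa [Real.log_mul hw0R.ne' (Real.exp_pos _).ne', Real.log_exp] at h1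
    have hlK : (l : ℝ) ≤ K := by
      have : l ≤ i - 1 := by omega
      exact_mod_cast this
    have htK : (l : ℝ) ≤ tm d m r ω K z := hlK.trans (le_tm hd hω K z)
    have htK' : (l : ℝ) / B₁ ≤ tm d m r ω K z / B₁ := div_le_div_of_nonneg_right htK hB1.le
    have hgap : (l : ℝ) / B₁ ≤ Real.log |(z : ℝ)| - Real.log |(w0 : ℝ)| := by linarith
    -- the level of `w0`
    set j := lev d w0 with hj
    have hj1 : |(w0 : ℝ)| < (d : ℝ) ^ j := lev_lt hd w0
    have hj2 : (d : ℝ) ^ (j - 1) ≤ |(w0 : ℝ)| := lev_ge hw00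
    have hj0 : 1 ≤ j := by rw [hj]; unfold lev; omega
    have hji : j < i := by
      have h1 : Real.log ((d : ℝ) ^ (j - 1) * d ^ 2) ≤ Real.log |(z : ℝ)| := by
        rw [Real.log_mul (by positivity) (by positivity), Real.log_pow (n := 2)]
        have := Real.log_le_log (by positivity) hj2
        push_cast
        linarith
      have h2 : (d : ℝ) ^ (j - 1) * d ^ 2 ≤ |(z : ℝ)| := (Real.log_le_log_iff (by positivity) hz0R).1 h1
      have h3 : (d : ℝ) ^ (j - 1 + 2) < (d : ℝ) ^ i := by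
        rw [pow_add]; exact h2.trans_lt hfp.2
      have := (pow_lt_pow_iff_right₀ (by linarith : (1 : ℝ) < d)).1 h3
      omega
    have hex : ∃ e, |(((Tm d m r)^[e] x : ℤ) : ℝ)| < (d : ℝ) ^ j :=
      ⟨K + q, by rw [Function.iterate_add_apply]; exact hj1⟩
    set m' := Nat.find hex with hm'
    have hm'1 : |(((Tm d m r)^[m'] x : ℤ) : ℝ)| < (d : ℝ) ^ j := Nat.find_spec hex
    have hm'2 : ∀ e < m', (d : ℝ) ^ j ≤ |(((Tm d m r)^[e] x : ℤ) : ℝ)| :=
      fun e he => not_lt.1 (Nat.find_min hex he)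
    have hm'3 : m' ≤ K + q := Nat.find_min' hex (by rw [Function.iterate_add_apply]; exact hj1)
    set w := (Tm d m r)^[m'] x with hw
    have hw_0 : w ≠ 0 := hx m'
    have hwR : (0 : ℝ) < |(w : ℝ)| := lt_of_lt_of_le one_pos (one_le_abs' hw_0)
    set j' := lev d w with hj'
    have hj'1 : |(w : ℝ)| < (d : ℝ) ^ j' := lev_lt hd w
    have hj'2 : (d : ℝ) ^ (j' - 1) ≤ |(w : ℝ)| := lev_ge hw_0
    have hj'j : j' ≤ j := by
      have h1 : (d : ℝ) ^ (j' - 1) < (d : ℝ) ^ j := by linarith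
      have := (pow_lt_pow_iff_right₀ (by linarith : (1 : ℝ) < d)).1 h1
      omega
    have hfp' : FP d m r j' m' x :=
      ⟨fun e he => (pow_le_pow_right₀ (by linarith) hj'j).trans (hm'2 e he), hj'1⟩
    apply ih j' (by omega) m' (by omega) hfp' hj'2
    -- the time
    have hlw : Real.log |(w : ℝ)| ≤ Real.log |(w0 : ℝ)| + Real.log d := by
      have h1 : |(w : ℝ)| ≤ |(w0 : ℝ)| * d := by
        refine hm'1.le.trans ?_
        have : (d : ℝ) ^ j = (d : ℝ) ^ (j - 1) * d := by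
          obtain ⟨e, he⟩ : ∃ e, j = e + 1 := ⟨j - 1, by omega⟩
          rw [he, Nat.add_sub_cancel, pow_succ]
        rw [this]
        exact mul_le_mul_of_nonneg_right hj2 (by linarith)
      have h2 := Real.log_le_log hwR h1
      rwa [Real.log_mul hw0R.ne' (by linarith)] at h2
    have h1 : tm d m r ω m' x ≤ tm d m r ω q x + tm d m r ω K z := by
      rw [hz, ← tm_add]
      exact tm_mono hd hω hm'3 x
    have h2 : tm d m r ω K z ≤ B₁ * (Real.log |(z : ℝ)| - Real.log |(w0 : ℝ)|) := by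
      have h3 : tm d m r ω K z / B₁ ≤ Real.log |(z : ℝ)| - Real.log |(w0 : ℝ)| := by linarith
      rw [div_le_iff₀ hB1] at h3
      linarith
    have h3 : (B - B₁) * (l / B₁) ≤ (B - B₁) * (Real.log |(z : ℝ)| - Real.log |(w0 : ℝ)|) :=
      mul_le_mul_of_nonneg_left hgap (by linarith)
    have h4 : B * Real.log |(w : ℝ)| ≤ B * (Real.log |(w0 : ℝ)| + Real.log d) :=
      mul_le_mul_of_nonneg_left hlw hB0.le
    nlinarith

/-- the chain from the start -/
theorem time_start (hd : 2 ≤ d) {ω : ℕ → ℝ} (hω : ∀ i < d, 1 ≤ ω i) {B₁ B : ℝ} (hB1 : 0 < B₁) (hBB : B₁ < B)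
    {n l M : ℕ} {x : ℤ} (hx : ∀ k, (Tm d m r)^[k] x ≠ 0)
    (hxk : |(x : ℝ)| < (d : ℝ) ^ n) (hl1 : 2 * Real.log d ≤ l / B₁)
    (hl2 : B * Real.log d ≤ (B - B₁) * (l / B₁)) (hM : B * (n * Real.log d) ≤ M)
    (h : ∀ i q, l < i → i ≤ n → q ≤ M → FP d m r i q x → (Tm d m r)^[q] x ∉ Ez d m r ω B₁ i) :
    ∃ q', |(((Tm d m r)^[q'] x : ℤ) : ℝ)| < (d : ℝ) ^ l ∧
        tm d m r ω q' x ≤ B * (Real.log |(x : ℝ)| - Real.log |(((Tm d m r)^[q'] x : ℤ) : ℝ)|) := by
  have hdR : (2 : ℝ) ≤ d := by exact_mod_cast hd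
  have hj1 := lev_lt hd x
  have hj2 := lev_ge (d := d) (hx 0)
  have hjk : lev d x ≤ n := by
    have h1 : (d : ℝ) ^ (lev d x - 1) < (d : ℝ) ^ n := lt_of_le_of_lt hj2 hxk
    have := (pow_lt_pow_iff_right₀ (by linarith : (1 : ℝ) < d)).1 h1
    omega
  refine time_chain hd hω hB1 hBB hx hxk hl1 hl2 hM h (lev d x) 0 hjk
    ⟨fun j hj => by omega, by simpa using hj1⟩ ?_ (by simp [tm_zero])
  simpa using hj2

end Pool.Agent.TH930.FD
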