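import Pool.Agent.TH930.GH.Grow
import Pool.Agent.H828R3.GP.Pass

set_option autoImplicit false

/-! Generalised `3x+1` maps: time weights of the steps, and the points which do not descend fast. -/

namespace Pool.Agent.TH930.FD

open Finset Pool.Agent.H319R3.GC Pool.Agent.TH930.GH

variable {d : ℕ} {m r : ℕ → ℤ}

/-- the time of a word -/
def Om (ω : ℕ → ℝ) (w : List ℕ) : ℝ := (w.map ω).sum

/-- the time of the first `n` steps from `x` -/
noncomputable def tm (d : ℕ) (m r : ℕ → ℤ) (ω : ℕ → ℝ) (n : ℕ) (x : ℤ) : ℝ := Om ω (wd d m r n x)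

lemma tm_zero (ω : ℕ → ℝ) (x : ℤ) : tm d m r ω 0 x = 0 := by simp [tm, Om, wd]

lemma tm_succ (ω : ℕ → ℝ) (n : ℕ) (x : ℤ) :
    tm d m r ω (n + 1) x = ω (x % d).toNat + tm d m r ω n (Tm d m r x) := by simp [tm, Om, wd]

lemma tm_add (ω : ℕ → ℝ) (a b : ℕ) : ∀ x : ℤ,
    tm d m r ω (a + b) x = tm d m r ω b x + tm d m r ω a ((Tm d m r)^[b] x) := by
  induction b with
  | zero => intro x; simp [tm_zero]
  | succ b ih =>
    intro x
    rw [← add_assoc, tm_succ, ih, tm_succ, Function.iterate_succ_apply]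
    ring

lemma le_tm (hd : 2 ≤ d) {ω : ℕ → ℝ} (hω : ∀ i < d, 1 ≤ ω i) (n : ℕ) : ∀ x : ℤ, (n : ℝ) ≤ tm d m r ω n x := by
  induction n with
  | zero => intro x; simp [tm_zero]
  | succ n ih =>
    intro x
    rw [tm_succ]
    have h1 := hω _ (toNat_mod hd x).2
    have h2 := ih (Tm d m r x)
    push_cast
    linarith

lemma tm_mono (hd : 2 ≤ d) {ω : ℕ → ℝ} (hω : ∀ i < d, 1 ≤ ω i) {a b : ℕ} (hab : a ≤ b) (x : ℤ) :
    tm d m r ω a x ≤ tm d m r ω b x := by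
  obtain ⟨e, rfl⟩ := Nat.exists_eq_add_of_le hab
  rw [add_comm, tm_add]
  have h1 := le_tm (m := m) (r := r) hd hω e ((Tm d m r)^[a] x)
  have h2 : (0 : ℝ) ≤ e := Nat.cast_nonneg e
  linarith

/-- the offset of a word -/
lemma Ww_le (h : Cop d m r) {R : ℝ} (hR : ∀ i < d, |(r i : ℝ)| ≤ R) (hR0 : 0 ≤ R) :
    ∀ w : List ℕ, (∀ i ∈ w, i < d) →
      |(Ww d m r w : ℝ)| ≤ R * |(Mw m w : ℝ)| * ((d : ℝ) ^ w.length - 1) := by
  have hdR : (2 : ℝ) ≤ d := by exact_mod_cast h.two_le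
  intro w
  induction w with
  | nil => intro _; simp [Ww]
  | cons i w ih =>
    intro hw
    have hi := hw i (by simp)
    have h1 := ih (fun j hj => hw j (by simp [hj]))
    have h2 : (1 : ℝ) ≤ |(m i : ℝ)| := h.one_le hi
    have h3 : (1 : ℝ) ≤ (d : ℝ) ^ w.length := one_le_pow₀ (by linarith)
    have hM0 : (0 : ℝ) ≤ |(Mw m w : ℝ)| := abs_nonneg _
    have e1 : (Ww d m r (i :: w) : ℝ) = r i * Mw m w + d * Ww d m r w := by
      simp [Ww]
    rw [e1, Mw_cons, List.length_cons, pow_succ]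
    push_cast
    rw [abs_mul (m i : ℝ)]
    have h4 : |(r i : ℝ) * Mw m w + d * Ww d m r w| ≤
        R * |(Mw m w : ℝ)| + d * (R * |(Mw m w : ℝ)| * ((d : ℝ) ^ w.length - 1)) := by
      refine (abs_add_le _ _).trans ?_
      rw [abs_mul, abs_mul, abs_of_nonneg (by linarith : (0 : ℝ) ≤ d)]
      exact add_le_add (mul_le_mul_of_nonneg_right (hR i hi) hM0)
        (mul_le_mul_of_nonneg_left h1 (by linarith))
    refine h4.trans ?_
    have h5 : R * |(Mw m w : ℝ)| + d * (R * |(Mw m w : ℝ)| * ((d : ℝ) ^ w.length - 1)) ≤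
        R * |(Mw m w : ℝ)| * ((d : ℝ) ^ w.length * d - 1) := by
      have : 0 ≤ R * |(Mw m w : ℝ)| := by positivity
      nlinarith
    refine h5.trans ?_
    have h6 : 0 ≤ (d : ℝ) ^ w.length * d - 1 := by nlinarith
    apply mul_le_mul_of_nonneg_right _ h6
    apply mul_le_mul_of_nonneg_left _ hR0
    nlinarith

lemma Pr_w (h : Cop d m r) (ω : ℕ → ℝ) (s θ : ℝ) {v : List ℕ} (hv : ∀ i ∈ v, i < d) :
    Pr (fun i => |(m i : ℝ)| ^ s * Real.exp (θ * ω i)) v = |(Mw m v : ℝ)| ^ s * Real.exp (θ * Om ω v) := by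
  induction v with
  | nil => simp [Pr, Mw, Om]
  | cons a v ih =>
    rw [Pr_cons, ih (fun i hi => hv i (by simp [hi])), Mw_cons]
    have e : Om ω (a :: v) = ω a + Om ω v := by simp [Om]
    rw [e, mul_add, Real.exp_add]
    push_cast
    rw [abs_mul, Real.mul_rpow (abs_nonneg _) (abs_nonneg _)]
    ring

open Classical in
/-- the points of level `i` which do not descend fast in `i - 1` steps -/
noncomputable def Ez (d : ℕ) (m r : ℕ → ℤ) (ω : ℕ → ℝ) (B : ℝ) (i : ℕ) : Finset ℤ :=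
  (Icc (-(d : ℤ) ^ i) ((d : ℤ) ^ i)).filter (fun z => |(z : ℝ)| < (d : ℝ) ^ i ∧
    (d : ℝ) ^ (i - 1) ≤ |(z : ℝ)| ∧
    |(z : ℝ)| ≤ |(((Tm d m r)^[i - 1] z : ℤ) : ℝ)| * Real.exp (tm d m r ω (i - 1) z / B))

lemma mem_Ez {ω : ℕ → ℝ} {B : ℝ} {i : ℕ} {z : ℤ} : z ∈ Ez d m r ω B i ↔ |(z : ℝ)| < (d : ℝ) ^ i ∧
    (d : ℝ) ^ (i - 1) ≤ |(z : ℝ)| ∧
    |(z : ℝ)| ≤ |(((Tm d m r)^[i - 1] z : ℤ) : ℝ)| * Real.exp (tm d m r ω (i - 1) z / B) := by
  unfold Ez
  rw [mem_filter, and_iff_right_iff_imp]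
  rintro ⟨h1, -⟩
  exact Pool.Agent.H828R3.GP.mem_Icc_of_abs h1

/-- the count of these points -/
theorem card_Ez (h : Cop d m r) {R : ℝ} (hR : ∀ i < d, |(r i : ℝ)| ≤ R) (hR0 : 0 ≤ R) {ω : ℕ → ℝ}
    {B s c : ℝ} (hB : 0 < B) (hs : 0 ≤ s)
    (hZ : ∑ j ∈ range d, |(m j : ℝ)| ^ s * Real.exp (s / B * ω j) ≤ (d : ℝ) ^ (s + (1 - c))) (i : ℕ) :
    ((Ez d m r ω B i).card : ℝ) ≤ 4 * d * (1 + R) ^ s * (((d : ℝ) ^ (i - 1)) ^ (1 - c)) := by
  classical
  have hdR : (2 : ℝ) ≤ d := by exact_mod_cast h.two_le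
  have hd0 : (0 : ℝ) < d := by linarith
  rcases Nat.eq_zero_or_pos i with h0 | hi
  · subst h0
    have : Ez d m r ω B 0 = ∅ := by
      rw [eq_empty_iff_forall_notMem]
      intro z hz
      rw [mem_Ez] at hz
      obtain ⟨h1, h2, -⟩ := hz
      simp only [pow_zero, Nat.zero_sub] at h1 h2
      linarith
    rw [this, card_empty, Nat.cast_zero]
    positivity
  obtain ⟨K, rfl⟩ : ∃ K, i = K + 1 := ⟨i - 1, by omega⟩
  rw [Nat.add_sub_cancel]
  set E := Ez d m r ω B (K + 1) with hE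
  have hcard : E.card = ∑ w ∈ LW d K, (E.filter (fun x => wd d m r K x = w)).card := by
    apply card_eq_sum_card_fiberwise
    intro x _
    exact mem_coe.2 (wd_mem h.two_le K x)
  have hfib : ∀ w ∈ LW d K, ((E.filter (fun x => wd d m r K x = w)).card : ℝ) ≤
      4 * d * ((1 + R) ^ s / ((d : ℝ) ^ K) ^ s * (|(Mw m w : ℝ)| ^ s * Real.exp (s / B * Om ω w))) := by
    intro w hw
    have hw' := (mem_LW.1 hw).2
    have hwl := (mem_LW.1 hw).1
    have hM0 : (0 : ℝ) < |(Mw m w : ℝ)| := _root_.abs_pos.2 (by exact_mod_cast h.Mw_ne hw')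
    rcases (E.filter (fun x => wd d m r K x = w)).eq_empty_or_nonempty with h0 | ⟨x0, hx0⟩
    · rw [h0, card_empty, Nat.cast_zero]; positivity
    rw [mem_filter] at hx0
    have h2 : 1 ≤ (1 + R) ^ s / ((d : ℝ) ^ K) ^ s * (|(Mw m w : ℝ)| ^ s * Real.exp (s / B * Om ω w)) := by
      obtain ⟨a1, a2, a3⟩ := mem_Ez.1 hx0.1
      rw [Nat.add_sub_cancel] at a2 a3
      have hdK : (0 : ℝ) < (d : ℝ) ^ K := by positivity
      have hx00 : (0 : ℝ) < |(x0 : ℝ)| := lt_of_lt_of_le hdK a2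
      have b1 := h.iter_eq K x0
      rw [hx0.2] at b1
      have b2 : (d : ℝ) ^ K * (((Tm d m r)^[K] x0 : ℤ) : ℝ) = Mw m w * x0 - Ww d m r w := by
        exact_mod_cast b1
      have b3 : (d : ℝ) ^ K * |(((Tm d m r)^[K] x0 : ℤ) : ℝ)| ≤ (1 + R) * |(Mw m w : ℝ)| * |(x0 : ℝ)| := by
        have b4 : (d : ℝ) ^ K * |(((Tm d m r)^[K] x0 : ℤ) : ℝ)| = |(Mw m w : ℝ) * x0 - Ww d m r w| := by
          rw [← b2, abs_mul, abs_of_pos hdK]
        rw [b4]
        refine (abs_sub _ _).trans ?_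
        rw [abs_mul]
        have b5 := Ww_le h hR hR0 w hw'
        rw [hwl] at b5
        have b6 : R * |(Mw m w : ℝ)| * ((d : ℝ) ^ K - 1) ≤ R * |(Mw m w : ℝ)| * |(x0 : ℝ)| := by
          apply mul_le_mul_of_nonneg_left _ (by positivity)
          linarith
        linarith
      have b7 : tm d m r ω K x0 = Om ω w := by unfold tm; rw [hx0.2]
      rw [b7] at a3
      have b8 : (d : ℝ) ^ K * |(x0 : ℝ)| ≤ (1 + R) * |(Mw m w : ℝ)| * Real.exp (Om ω w / B) * |(x0 : ℝ)| := by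
        calc (d : ℝ) ^ K * |(x0 : ℝ)| ≤ (d : ℝ) ^ K * (|(((Tm d m r)^[K] x0 : ℤ) : ℝ)| * Real.exp (Om ω w / B)) :=
              mul_le_mul_of_nonneg_left a3 hdK.le
          _ = ((d : ℝ) ^ K * |(((Tm d m r)^[K] x0 : ℤ) : ℝ)|) * Real.exp (Om ω w / B) := by ring
          _ ≤ ((1 + R) * |(Mw m w : ℝ)| * |(x0 : ℝ)|) * Real.exp (Om ω w / B) :=
              mul_le_mul_of_nonneg_right b3 (Real.exp_pos _).le
          _ = _ := by ring
      have b9 := le_of_mul_le_mul_right b8 hx00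
      have b10 := Real.rpow_le_rpow hdK.le b9 hs
      rw [Real.mul_rpow (by positivity) (Real.exp_pos _).le, Real.mul_rpow (by linarith) hM0.le,
        ← Real.exp_mul] at b10
      have hdKs : 0 < ((d : ℝ) ^ K) ^ s := Real.rpow_pos_of_pos hdK _
      rw [div_mul_eq_mul_div, le_div_iff₀ hdKs, one_mul]
      have e : Om ω w / B * s = s / B * Om ω w := by ring
      rw [e] at b10
      linarith
    have h3 := Pool.Agent.H828R3.GP.card_ap (E.filter (fun x => wd d m r K x = w)) (d ^ K)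
      (by have := h.two_le; positivity) x0 (2 * (d : ℝ) ^ (K + 1)) (by positivity) (by
        intro x hx
        rw [mem_filter] at hx
        have h4 := h.wd_cong (hx.2.trans hx0.2.symm)
        push_cast
        exact h4) (by
        intro x hx z hz
        rw [mem_filter] at hx hz
        have h4 := (mem_Ez.1 hx.1).1
        have h5 := (mem_Ez.1 hz.1).1
        rw [abs_lt] at h4 h5
        push_cast
        linarith [h4.2, h5.1])
    have h4 : 2 * (d : ℝ) ^ (K + 1) / ((d ^ K : ℕ) : ℝ) = 2 * d := by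
      push_cast
      rw [pow_succ]
      have : (d : ℝ) ^ K ≠ 0 := by positivity
      field_simp
    rw [h4] at h3
    calc ((E.filter (fun x => wd d m r K x = w)).card : ℝ) ≤ 2 * d + 1 := h3
      _ ≤ 4 * d * 1 := by linarith
      _ ≤ _ := mul_le_mul_of_nonneg_left h2 (by positivity)
  rw [hcard]
  push_cast
  refine (sum_le_sum hfib).trans ?_
  rw [← mul_sum, ← mul_sum]
  have h6 : ∑ w ∈ LW d K, |(Mw m w : ℝ)| ^ s * Real.exp (s / B * Om ω w) =
      (∑ j ∈ range d, |(m j : ℝ)| ^ s * Real.exp (s / B * ω j)) ^ K := by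
    rw [← sum_Pr]
    apply sum_congr rfl
    intro w hw
    exact (Pr_w h ω s (s / B) (mem_LW.1 hw).2).symm
  rw [h6]
  have h7 : (∑ j ∈ range d, |(m j : ℝ)| ^ s * Real.exp (s / B * ω j)) ^ K ≤
      ((d : ℝ) ^ (s + (1 - c))) ^ K :=
    pow_le_pow_left₀ (sum_nonneg fun j _ => by positivity) hZ K
  have h8 : ((d : ℝ) ^ (s + (1 - c))) ^ K = ((d : ℝ) ^ K) ^ s * ((d : ℝ) ^ K) ^ (1 - c) := by
    rw [← Real.rpow_natCast, ← Real.rpow_mul hd0.le, mul_comm, Real.rpow_mul hd0.le, Real.rpow_natCast,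
      Real.rpow_add (by positivity)]
  have hdKs : 0 < ((d : ℝ) ^ K) ^ s := Real.rpow_pos_of_pos (by positivity) _
  calc 4 * (d : ℝ) * ((1 + R) ^ s / ((d : ℝ) ^ K) ^ s *
        (∑ j ∈ range d, |(m j : ℝ)| ^ s * Real.exp (s / B * ω j)) ^ K)
      ≤ 4 * (d : ℝ) * ((1 + R) ^ s / ((d : ℝ) ^ K) ^ s *
        (((d : ℝ) ^ K) ^ s * ((d : ℝ) ^ K) ^ (1 - c))) := by
        rw [← h8]
        apply mul_le_mul_of_nonneg_left _ (by positivity)
        exact mul_le_mul_of_nonneg_left h7 (by positivity)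
    _ = _ := by field_simp

end Pool.Agent.TH930.FD
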