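import Pool.Agent.TH930.FD.Chain

set_option autoImplicit false

/-! The law of the descent in logarithmic time for contracting generalised `3x+1` maps of coprime type. -/

namespace Pool.Agent.TH930.FD

open Finset Pool.Agent.H319R3.GC Pool.Agent.TH930.GH Pool.Agent.H828R3.GP
open Pool.Agent.TH930.ZT (abs_natAbs one_le_abs')

variable {d : ℕ} {m r : ℕ → ℤ}

theorem card_family (h : Adm d m r) {R : ℝ} (hR : ∀ i < d, |(r i : ℝ)| ≤ R) (hR0 : 0 ≤ R)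
    (n l M : ℕ) (E : ℕ → Finset ℤ)
    (hE : ∀ i, ∀ y ∈ E i, (d : ℝ) ^ (i - 1) ≤ |(y : ℝ)|) (hM : 4 * (M : ℝ) * R ≤ (d : ℝ) ^ l)
    (S : Finset ℤ)
    (hS : ∀ x ∈ S, |(x : ℝ)| < (d : ℝ) ^ n ∧ ∃ i q, l < i ∧ i ≤ n ∧ q ≤ M ∧ FP d m r i q x ∧
      (Tm d m r)^[q] x ∈ E i) :
    (S.card : ℝ) ≤ ∑ i ∈ Ioc l n, ((E i).card : ℝ) *
      ((M + 1) * ((M + 1) ^ d * (8 * M * R * (d : ℝ) ^ (n - i + 1) + 1))) := by
  classical
  have hdR : (2 : ℝ) ≤ d := by exact_mod_cast h.two_le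
  have hsub : S ⊆ (Ioc l n).biUnion (fun i => Pa d m r n i M 1 0 (E i)) := by
    intro x hx
    obtain ⟨h2, i, q, h3, h4, h5, h6, h7⟩ := hS x hx
    rw [mem_biUnion]
    refine ⟨i, mem_Ioc.2 ⟨h3, h4⟩, ?_⟩
    unfold Pa
    rw [mem_filter]
    exact ⟨mem_Icc_of_abs h2, h2, by simp, q, h5, h6, h7⟩
  have h1 := (card_le_card hsub).trans card_biUnion_le
  have h2 : (S.card : ℝ) ≤ ∑ i ∈ Ioc l n, (((Pa d m r n i M 1 0 (E i)).card : ℕ) : ℝ) := by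
    exact_mod_cast h1
  refine h2.trans (sum_le_sum fun i hi => ?_)
  rw [mem_Ioc] at hi
  have h3 := card_Pa h hR hR0 (k := n) (i := i) (N := M) (q := 1) (by omega) hi.2
    (hM.trans (pow_le_pow_right₀ (by linarith) hi.1.le)) one_pos 0 (E i) (hE i)
  push_cast at h3
  rw [div_one] at h3
  exact h3

/-- the sum over the levels -/
theorem sum_levels (hd : 2 ≤ d) {n l M : ℕ} {C c R : ℝ} (hC : 0 ≤ C) (hc : 0 ≤ c) (hR : 0 ≤ R) (f : ℕ → ℝ)
    (hf : ∀ i, l < i → i ≤ n → f i ≤ C * ((d : ℝ) ^ i) ^ (1 - c)) :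
    ∑ i ∈ Ioc l n, f i * (((M : ℝ) + 1) * ((M + 1) ^ d * (8 * M * R * (d : ℝ) ^ (n - i + 1) + 1))) ≤
      n * ((M + 1) ^ (d + 1) * (8 * M * R * d + 1)) * (C * ((d : ℝ) ^ n * ((d : ℝ) ^ l) ^ (-c))) := by
  have hdR : (2 : ℝ) ≤ d := by exact_mod_cast hd
  have hMn : (0 : ℝ) ≤ M := Nat.cast_nonneg M
  have h1 : ∀ i ∈ Ioc l n, f i * (((M : ℝ) + 1) * ((M + 1) ^ d * (8 * M * R * (d : ℝ) ^ (n - i + 1) + 1))) ≤
      ((M + 1) ^ (d + 1) * (8 * M * R * d + 1)) * (C * ((d : ℝ) ^ n * ((d : ℝ) ^ l) ^ (-c))) := by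
    intro i hi
    rw [mem_Ioc] at hi
    have h2i : (0 : ℝ) < (d : ℝ) ^ i := by positivity
    have e1 : (d : ℝ) ^ (n - i + 1) = d * ((d : ℝ) ^ n / (d : ℝ) ^ i) := by
      rw [mul_div_assoc', eq_div_iff h2i.ne', ← pow_add]
      have : n - i + 1 + i = n + 1 := by omega
      rw [this, pow_succ]; ring
    have e2 : ((d : ℝ) ^ i) ^ (1 - c) = (d : ℝ) ^ i * ((d : ℝ) ^ i) ^ (-c) := by
      rw [show 1 - c = 1 + -c by ring, Real.rpow_add h2i, Real.rpow_one]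
    have e3 : ((d : ℝ) ^ i) ^ (-c) ≤ ((d : ℝ) ^ l) ^ (-c) :=
      Real.rpow_le_rpow_of_nonpos (by positivity) (pow_le_pow_right₀ (by linarith) hi.1.le) (by linarith)
    have e6 : (d : ℝ) ^ i ≤ (d : ℝ) ^ n := pow_le_pow_right₀ (by linarith) hi.2
    have e7 : 1 ≤ (d : ℝ) ^ n / (d : ℝ) ^ i := by rw [le_div_iff₀ h2i]; linarith
    have h3 : ((M : ℝ) + 1) * ((M + 1) ^ d * (8 * M * R * (d : ℝ) ^ (n - i + 1) + 1)) ≤
        ((M + 1) ^ (d + 1) * (8 * M * R * d + 1)) * ((d : ℝ) ^ n / (d : ℝ) ^ i) := by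
      have h4 : 8 * M * R * (d : ℝ) ^ (n - i + 1) + 1 ≤ (8 * M * R * d + 1) * ((d : ℝ) ^ n / (d : ℝ) ^ i) := by
        rw [e1]
        have : 8 * M * R * (d * ((d : ℝ) ^ n / (d : ℝ) ^ i)) = 8 * M * R * d * ((d : ℝ) ^ n / (d : ℝ) ^ i) := by
          ring
        rw [this, add_mul, one_mul]
        linarith
      calc ((M : ℝ) + 1) * ((M + 1) ^ d * (8 * M * R * (d : ℝ) ^ (n - i + 1) + 1))
          = (M + 1) ^ (d + 1) * (8 * M * R * (d : ℝ) ^ (n - i + 1) + 1) := by rw [pow_succ]; ring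
        _ ≤ (M + 1) ^ (d + 1) * ((8 * M * R * d + 1) * ((d : ℝ) ^ n / (d : ℝ) ^ i)) :=
            mul_le_mul_of_nonneg_left h4 (by positivity)
        _ = _ := by ring
    have hp : 0 ≤ C * ((d : ℝ) ^ i) ^ (1 - c) := by positivity
    have hP : 0 ≤ ((M : ℝ) + 1) ^ (d + 1) * (8 * M * R * d + 1) := by positivity
    calc f i * (((M : ℝ) + 1) * ((M + 1) ^ d * (8 * M * R * (d : ℝ) ^ (n - i + 1) + 1)))
        ≤ (C * ((d : ℝ) ^ i) ^ (1 - c)) *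
          (((M + 1) ^ (d + 1) * (8 * M * R * d + 1)) * ((d : ℝ) ^ n / (d : ℝ) ^ i)) :=
          mul_le_mul (hf i hi.1 hi.2) h3 (by positivity) hp
      _ = ((M + 1) ^ (d + 1) * (8 * M * R * d + 1)) * (C * ((d : ℝ) ^ n * ((d : ℝ) ^ i) ^ (-c))) := by
          rw [e2]; field_simp
      _ ≤ _ := by
          apply mul_le_mul_of_nonneg_left _ hP
          apply mul_le_mul_of_nonneg_left _ hC
          exact mul_le_mul_of_nonneg_left e3 (by positivity)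
  refine (sum_le_sum h1).trans ?_
  rw [sum_const, Nat.card_Ioc, nsmul_eq_mul, mul_assoc (n : ℝ)]
  apply mul_le_mul_of_nonneg_right _ (by positivity)
  exact_mod_cast Nat.sub_le _ _

/-- passing to real scales -/
theorem to_real (hd : 2 ≤ d) {c B₀ D : ℝ} (hc0 : 0 ≤ c) (hc1 : c ≤ 1) (hB₀ : 0 ≤ B₀) (hD : 0 ≤ D)
    (I₀ e : ℕ) (he : 1 ≤ e) (bad : ℝ → ℤ → Prop)
    (mono : ∀ y y' : ℝ, ∀ n : ℤ, y ≤ y' → bad y' n → bad y n)
    (dy : ∀ n l : ℕ, 1 ≤ n → I₀ ≤ l → B₀ * n ≤ (d : ℝ) ^ l → ∀ S : Finset ℤ,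
      (∀ x ∈ S, x ≠ 0 ∧ |(x : ℝ)| < (d : ℝ) ^ n ∧ bad ((d : ℝ) ^ l) x) →
      (S.card : ℝ) ≤ D * (n : ℝ) ^ e * ((d : ℝ) ^ n * ((d : ℝ) ^ l) ^ (-c))) :
    ∃ C : ℝ, 0 < C ∧ ∀ x y : ℝ, 2 ≤ x → 1 ≤ y →
      ({n : ℤ | n ≠ 0 ∧ |(n : ℝ)| ≤ x ∧ bad y n}.ncard : ℝ) ≤
        C * (Real.log x) ^ e * (x / y ^ c) := by
  classical
  have hdR : (2 : ℝ) ≤ d := by exact_mod_cast hd
  have hd1 : 1 < d := by omega
  set C : ℝ := d ^ 2 * D * 3 ^ e + 3 * (2 ^ e * (d * (d : ℝ) ^ I₀)) + 3 * (2 ^ e * (3 * d * B₀)) + 1 with hC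
  have hC0 : 0 < C := by positivity
  refine ⟨C, hC0, ?_⟩
  intro x y hx hy
  have hx0 : 0 < x := by linarith
  have hy0 : 0 < y := by linarith
  set L := Real.log x with hL
  have hl2 := Real.log_two_lt_d9
  have hl2' := Real.log_two_gt_d9
  have hld : Real.log 2 ≤ Real.log d := Real.log_le_log (by norm_num) hdR
  have hL2 : Real.log 2 ≤ L := Real.log_le_log (by norm_num) hx
  have hL0 : 0 < L := by linarith
  have hL1 : 1 / 2 ≤ L := by linarith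
  set N : ℕ := ⌊x⌋₊ with hN
  set S : Finset ℤ := (Icc (-(N : ℤ)) N).filter (fun n => n ≠ 0 ∧ bad y n) with hS
  have habs : ∀ n : ℤ, |(n : ℝ)| ≤ x ↔ |n| ≤ (N : ℤ) := by
    intro n
    rw [abs_natAbs, ← Nat.le_floor_iff hx0.le, Int.abs_eq_natAbs]
    exact_mod_cast Iff.rfl
  have hset : {n : ℤ | n ≠ 0 ∧ |(n : ℝ)| ≤ x ∧ bad y n} = (S : Set ℤ) := by
    ext n
    rw [hS, coe_filter]
    simp only [Set.mem_ofPred_eq, mem_Icc, habs, abs_le]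
    tauto
  rw [hset, Set.ncard_coe_finset]
  have hSx : (S.card : ℝ) ≤ 3 * x := by
    have h1 : S.card ≤ 2 * N + 1 := by
      refine (card_filter_le _ _).trans ?_
      rw [Int.card_Icc]
      have e : (N : ℤ) + 1 - -(N : ℤ) = ((2 * N + 1 : ℕ) : ℤ) := by push_cast; ring
      rw [e, Int.toNat_natCast]
    have h2 : (S.card : ℝ) ≤ 2 * N + 1 := by exact_mod_cast h1
    have h3 : (N : ℝ) ≤ x := Nat.floor_le hx0.le
    linarith
  have hyc : 0 < y ^ c := Real.rpow_pos_of_pos hy0 _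
  have hyc1 : y ^ c ≤ y := by
    calc y ^ c ≤ y ^ (1 : ℝ) := Real.rpow_le_rpow_of_exponent_le hy hc1
      _ = y := Real.rpow_one _
  have hLe : 1 ≤ 2 ^ e * L ^ e := by
    rw [← mul_pow]
    exact one_le_pow₀ (by linarith)
  -- the trivial case
  have htriv : ∀ A : ℝ, 0 ≤ A → 3 * A ≤ C → y ≤ A * L ^ e → (S.card : ℝ) ≤ C * L ^ e * (x / y ^ c) := by
    intro A hA0 hA1 hyA
    refine hSx.trans ?_
    rw [← mul_div_assoc, le_div_iff₀ hyc]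
    have h2 : 3 * y ^ c ≤ C * L ^ e := by
      calc 3 * y ^ c ≤ 3 * (A * L ^ e) := by linarith
        _ = (3 * A) * L ^ e := by ring
        _ ≤ C * L ^ e := mul_le_mul_of_nonneg_right hA1 (by positivity)
    calc 3 * x * y ^ c = x * (3 * y ^ c) := by ring
      _ ≤ x * (C * L ^ e) := mul_le_mul_of_nonneg_left h2 hx0.le
      _ = _ := by ring
  -- `k`
  obtain ⟨k, hk⟩ : ∃ k, k = Nat.log d N + 1 := ⟨_, rfl⟩
  have hfx : N ≠ 0 := by
    have : 2 ≤ N := Nat.le_floor (by exact_mod_cast hx)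
    omega
  have hkx : (d : ℝ) ^ k ≤ d * x := by
    have h1 : d ^ (Nat.log d N) ≤ N := Nat.pow_log_le_self d hfx
    have h2 : ((d : ℝ) ^ (Nat.log d N)) ≤ N := by exact_mod_cast h1
    have h3 : (N : ℝ) ≤ x := Nat.floor_le hx0.le
    rw [hk, pow_succ]; nlinarith
  have hxk : ∀ n : ℤ, |n| ≤ (N : ℤ) → |(n : ℝ)| < (d : ℝ) ^ k := by
    intro n hn
    have h1 : (N : ℝ) < (d : ℝ) ^ k := by
      rw [hk]
      exact_mod_cast Nat.lt_pow_succ_log_self hd1 N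
    have h2 : |(n : ℝ)| ≤ N := by exact_mod_cast hn
    linarith
  have hkL : (k : ℝ) ≤ 3 * L := by
    have h1 : (k : ℝ) * Real.log d ≤ Real.log (d * x) := by
      rw [← Real.log_pow]
      exact Real.log_le_log (by positivity) hkx
    rw [Real.log_mul (by positivity) hx0.ne', ← hL] at h1
    have h2 : ((k : ℝ) - 1) * Real.log d ≤ L := by linarith
    have h3 : (1 : ℝ) ≤ k := by exact_mod_cast (by omega : 1 ≤ k)
    have h4 : ((k : ℝ) - 1) * Real.log 2 ≤ ((k : ℝ) - 1) * Real.log d :=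
      mul_le_mul_of_nonneg_left hld (by linarith)
    nlinarith
  have hk1 : 1 ≤ k := by omega
  -- `l`
  obtain ⟨l, hl⟩ : ∃ l, l = Nat.log d ⌊y⌋₊ := ⟨_, rfl⟩
  have hfy : ⌊y⌋₊ ≠ 0 := by
    have : 1 ≤ ⌊y⌋₊ := Nat.le_floor (by exact_mod_cast hy)
    omega
  have hly : (d : ℝ) ^ l ≤ y := by
    have h1 : d ^ l ≤ ⌊y⌋₊ := by rw [hl]; exact Nat.pow_log_le_self d hfy
    have h2 : ((d : ℝ) ^ l) ≤ ⌊y⌋₊ := by exact_mod_cast h1
    exact h2.trans (Nat.floor_le hy0.le)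
  have hly2 : y ≤ d * (d : ℝ) ^ l := by
    have h1 : ⌊y⌋₊ < d ^ (l + 1) := by rw [hl]; exact Nat.lt_pow_succ_log_self hd1 _
    have h2 : ((⌊y⌋₊ + 1 : ℕ) : ℝ) ≤ (d : ℝ) ^ (l + 1) := by exact_mod_cast h1
    have h3 := Nat.lt_floor_add_one y
    push_cast at h2
    rw [pow_succ] at h2
    linarith
  have hDp : 0 ≤ (d : ℝ) ^ 2 * D * 3 ^ e := by positivity
  have hIp : 0 ≤ (2 : ℝ) ^ e * (d * (d : ℝ) ^ I₀) := by positivity
  have hBp : 0 ≤ 2 ^ e * (3 * d * B₀) := by positivity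
  by_cases hI : I₀ ≤ l
  swap
  · apply htriv (2 ^ e * (d * (d : ℝ) ^ I₀)) hIp (by rw [hC]; linarith)
    have h1 : (d : ℝ) ^ l ≤ (d : ℝ) ^ I₀ := pow_le_pow_right₀ (by linarith) (by omega)
    calc y ≤ 1 * (d * (d : ℝ) ^ I₀) := by nlinarith
      _ ≤ (2 ^ e * L ^ e) * (d * (d : ℝ) ^ I₀) := mul_le_mul_of_nonneg_right hLe (by positivity)
      _ = _ := by ring
  by_cases hM : B₀ * k ≤ (d : ℝ) ^ l
  swap
  · rw [not_le] at hM
    apply htriv (2 ^ e * (3 * d * B₀)) hBp (by rw [hC]; linarith)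
    have h1 : y ≤ d * (B₀ * (3 * L)) := by
      have h5 : B₀ * (k : ℝ) ≤ B₀ * (3 * L) := mul_le_mul_of_nonneg_left hkL hB₀
      refine hly2.trans ?_
      apply mul_le_mul_of_nonneg_left _ (by linarith)
      linarith
    have h2 : L ≤ 2 ^ e * L ^ e := by
      obtain ⟨f, rfl⟩ : ∃ f, e = f + 1 := ⟨e - 1, by omega⟩
      have h3 : 1 ≤ (2 * L) ^ f := one_le_pow₀ (by linarith)
      have h4 : (2 : ℝ) ^ (f + 1) * L ^ (f + 1) = 2 * L * (2 * L) ^ f := by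
        rw [mul_pow, pow_succ, pow_succ]; ring
      rw [h4]
      nlinarith
    calc y ≤ (3 * d * B₀) * L := by linarith
      _ ≤ (3 * d * B₀) * (2 ^ e * L ^ e) := mul_le_mul_of_nonneg_left h2 (by positivity)
      _ = _ := by ring
  -- the main case
  have hdd := dy k l hk1 hI hM S (by
    intro n hn
    rw [hS, mem_filter, mem_Icc] at hn
    exact ⟨hn.2.1, hxk n (abs_le.2 hn.1), mono _ _ n hly hn.2.2⟩)
  have hrl : ((d : ℝ) ^ l) ^ (-c) ≤ d * (1 / y ^ c) := by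
    have h1 : y / d ≤ (d : ℝ) ^ l := by
      rw [div_le_iff₀ (by linarith)]; linarith
    have h2 : ((d : ℝ) ^ l) ^ (-c) ≤ (y / d) ^ (-c) :=
      Real.rpow_le_rpow_of_nonpos (by positivity) h1 (by linarith)
    refine h2.trans ?_
    rw [Real.rpow_neg (by positivity), Real.div_rpow hy0.le (by linarith), inv_div, div_eq_mul_one_div]
    apply mul_le_mul_of_nonneg_right _ (by positivity)
    calc (d : ℝ) ^ c ≤ (d : ℝ) ^ (1 : ℝ) := Real.rpow_le_rpow_of_exponent_le (by linarith) hc1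
      _ = d := Real.rpow_one _
  have hbr : (d : ℝ) ^ k * ((d : ℝ) ^ l) ^ (-c) ≤ d ^ 2 * (x / y ^ c) := by
    have h1 : (d : ℝ) ^ k * ((d : ℝ) ^ l) ^ (-c) ≤ (d * x) * (d * (1 / y ^ c)) :=
      mul_le_mul hkx hrl (by positivity) (by positivity)
    have h4 : (d * x) * (d * (1 / y ^ c)) = (d : ℝ) ^ 2 * (x / y ^ c) := by ring
    rw [h4] at h1
    exact h1
  have hke : (k : ℝ) ^ e ≤ 3 ^ e * L ^ e := by
    rw [← mul_pow]
    exact pow_le_pow_left₀ (Nat.cast_nonneg _) hkL e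
  calc (S.card : ℝ) ≤ D * (k : ℝ) ^ e * ((d : ℝ) ^ k * ((d : ℝ) ^ l) ^ (-c)) := hdd
    _ ≤ (D * (3 ^ e * L ^ e)) * (d ^ 2 * (x / y ^ c)) := by
        apply mul_le_mul (mul_le_mul_of_nonneg_left hke hD) hbr (by positivity) (by positivity)
    _ = (d ^ 2 * D * 3 ^ e) * L ^ e * (x / y ^ c) := by ring
    _ ≤ C * L ^ e * (x / y ^ c) := by
        apply mul_le_mul_of_nonneg_right _ (by positivity)
        apply mul_le_mul_of_nonneg_right _ (by positivity)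
        rw [hC]; linarith

/-- the orbit of `n` avoids `0`, and `n` does not reach a value `|T^k n| ≤ y` in the time
`B log (|n| / |T^k n|)` -/
def timeBad (d : ℕ) (m r : ℕ → ℤ) (ω : ℕ → ℝ) (B y : ℝ) (n : ℤ) : Prop :=
  (∀ k, (Tm d m r)^[k] n ≠ 0) ∧ ¬ ∃ k : ℕ, |(((Tm d m r)^[k] n : ℤ) : ℝ)| ≤ y ∧
    tm d m r ω k n ≤ B * (Real.log |(n : ℝ)| - Real.log |(((Tm d m r)^[k] n : ℤ) : ℝ)|)

/-- the law of the descent in logarithmic time -/
theorem time_law (h : Adm d m r) {ω : ℕ → ℝ} (hω : ∀ i < d, 1 ≤ ω i) {B₁ B s c : ℝ} (hB1 : 0 < B₁)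
    (hBB : B₁ < B) (hs : 0 ≤ s) (hc0 : 0 ≤ c) (hc1 : c ≤ 1)
    (hZ : ∑ j ∈ range d, |(m j : ℝ)| ^ s * Real.exp (s / B₁ * ω j) ≤ (d : ℝ) ^ (s + (1 - c))) :
    ∃ C : ℝ, 0 < C ∧ ∀ x y : ℝ, 2 ≤ x → 1 ≤ y →
      ({n : ℤ | n ≠ 0 ∧ |(n : ℝ)| ≤ x ∧ timeBad d m r ω B y n}.ncard : ℝ) ≤
        C * (Real.log x) ^ (d + 3) * (x / y ^ c) := by
  classical
  have hd2 := h.two_le
  have hdR : (2 : ℝ) ≤ d := by exact_mod_cast hd2
  have hC : Cop d m r := ⟨h.two_le, h.cop, h.adm⟩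
  set R : ℝ := ∑ i ∈ range d, |(r i : ℝ)| with hRdef
  have hR0 : 0 ≤ R := sum_nonneg fun i _ => abs_nonneg _
  have hR : ∀ i < d, |(r i : ℝ)| ≤ R := fun i hi =>
    single_le_sum (f := fun i => |(r i : ℝ)|) (fun j _ => abs_nonneg _) (mem_range.2 hi)
  have hld0 : 0 < Real.log d := Real.log_pos (by linarith)
  have hB0 : 0 < B := by linarith
  set C₁ : ℝ := 4 * d * (1 + R) ^ s with hC₁
  have hC₁0 : 0 ≤ C₁ := by positivity
  set B' : ℝ := B * Real.log d + 1 with hB'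
  have hB'0 : 0 < B' := by positivity
  obtain ⟨I₀, hI₀⟩ : ∃ I₀ : ℕ, ∀ l : ℕ, I₀ ≤ l → 2 * Real.log d ≤ l / B₁ ∧
      B * Real.log d ≤ (B - B₁) * (l / B₁) := by
    refine ⟨⌈max (2 * B₁ * Real.log d) (B * B₁ * Real.log d / (B - B₁))⌉₊, fun l hl => ?_⟩
    have h1 : max (2 * B₁ * Real.log d) (B * B₁ * Real.log d / (B - B₁)) ≤ l :=
      (Nat.le_ceil _).trans (by exact_mod_cast hl)
    have h2 := (le_max_left _ _).trans h1
    have h3 := (le_max_right _ _).trans h1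
    have hb : 0 < B - B₁ := by linarith
    constructor
    · rw [le_div_iff₀ hB1]; linarith
    · rw [div_le_iff₀ hb] at h3
      rw [mul_div_assoc', le_div_iff₀ hB1]
      linarith
  refine to_real hd2 (c := c) (B₀ := 4 * R * B') (D := (B' + 1) ^ (d + 2) * (8 * R * d + 1) * C₁)
    hc0 hc1 (by positivity) (by positivity) I₀ (d + 3) (by omega) (fun y n => timeBad d m r ω B y n)
    (fun y y' n hyy hb => ⟨hb.1, fun ⟨k, h1, h2⟩ => hb.2 ⟨k, h1.trans hyy, h2⟩⟩) ?_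
  intro n l hn hIl hnl S hS
  have hnR : (1 : ℝ) ≤ n := by exact_mod_cast hn
  obtain ⟨M, hM1, hM2⟩ : ∃ M : ℕ, B * (n * Real.log d) ≤ M ∧ (M : ℝ) ≤ B' * n := by
    refine ⟨⌈B * (n * Real.log d)⌉₊, Nat.le_ceil _, ?_⟩
    have h1 : (⌈B * (n * Real.log d)⌉₊ : ℝ) < B * (n * Real.log d) + 1 := Nat.ceil_lt_add_one (by positivity)
    rw [hB']
    nlinarith
  obtain ⟨hl1, hl3⟩ := hI₀ l hIl
  have hMn : (0 : ℝ) ≤ M := Nat.cast_nonneg M
  have h1 := card_family h hR hR0 n l M (Ez d m r ω B₁) (fun i y hy => (mem_Ez.1 hy).2.1) (by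
    calc 4 * (M : ℝ) * R ≤ 4 * (B' * n) * R := by
          apply mul_le_mul_of_nonneg_right _ hR0
          linarith
      _ = 4 * R * B' * n := by ring
      _ ≤ _ := hnl) S (by
    intro x hx
    obtain ⟨g1, g2, g3, g4⟩ := hS x hx
    refine ⟨g2, ?_⟩
    by_contra hcon
    push Not at hcon
    apply g4
    obtain ⟨q, e1, e2⟩ := time_start hd2 hω hB1 hBB g3 g2 hl1 hl3 hM1
      (fun i q k1 k2 k3 k4 => hcon i q k1 k2 k3 k4)
    exact ⟨q, e1.le, e2⟩)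
  have h2 := sum_levels hd2 (n := n) (l := l) (M := M) (C := C₁) (c := c) (R := R) hC₁0 hc0 hR0
    (fun i => ((Ez d m r ω B₁ i).card : ℝ)) (by
      intro i hi _
      refine (card_Ez hC hR hR0 hB1 hs hZ i).trans ?_
      apply mul_le_mul_of_nonneg_left _ hC₁0
      apply Real.rpow_le_rpow (by positivity) _ (by linarith)
      exact pow_le_pow_right₀ (by linarith) (Nat.sub_le _ _))
  refine (h1.trans h2).trans ?_
  set X : ℝ := (d : ℝ) ^ n * ((d : ℝ) ^ l) ^ (-c) with hX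
  have hX0 : 0 ≤ X := by positivity
  have hM3 : (M : ℝ) + 1 ≤ (B' + 1) * n := by linarith
  have h3 : ((M : ℝ) + 1) ^ (d + 1) * (8 * M * R * d + 1) ≤ ((B' + 1) * n) ^ (d + 2) * (8 * R * d + 1) := by
    have h4 : 8 * (M : ℝ) * R * d + 1 ≤ (M + 1) * (8 * R * d + 1) := by
      have : 0 ≤ R * d := by positivity
      nlinarith
    calc ((M : ℝ) + 1) ^ (d + 1) * (8 * M * R * d + 1) ≤ (M + 1) ^ (d + 1) * ((M + 1) * (8 * R * d + 1)) :=
          mul_le_mul_of_nonneg_left h4 (by positivity)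
      _ = (M + 1) ^ (d + 2) * (8 * R * d + 1) := by rw [pow_succ _ (d + 1)]; ring
      _ ≤ _ := by
          apply mul_le_mul_of_nonneg_right _ (by positivity)
          exact pow_le_pow_left₀ (by positivity) hM3 _
  calc (n : ℝ) * ((M + 1) ^ (d + 1) * (8 * M * R * d + 1)) * (C₁ * X)
      ≤ n * (((B' + 1) * n) ^ (d + 2) * (8 * R * d + 1)) * (C₁ * X) := by
        apply mul_le_mul_of_nonneg_right _ (by positivity)
        exact mul_le_mul_of_nonneg_left h3 (by positivity)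
    _ = (B' + 1) ^ (d + 2) * (8 * R * d + 1) * C₁ * (n : ℝ) ^ (d + 3) * X := by
        rw [mul_pow, pow_succ (n : ℝ) (d + 2)]; ring

end Pool.Agent.TH930.FD
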